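import Mathlib

set_option autoImplicit false

/-! A chain of size continuum with a countable part attached that interprets pairing. -/

namespace Pool.Agent.H.MP_b47165_lc

open FirstOrder FirstOrder.Language

section
variable {M : Type} [PartialOrder M] [Language.order.Structure M]
  [Language.order.OrderedStructure M] {α : Type}

def Df (p : (α → M) → Prop) : Prop := (Set.univ : Set M).Definable Language.order {v | p v}
def Tm (t : (α → M) → M) : Prop := (Set.univ : Set M).DefinableFun Language.order t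
def D2 (R : M → M → Prop) : Prop := Df fun v : Fin 2 → M => R (v 0) (v 1)

variable {p q : (α → M) → Prop} {s t : (α → M) → M}

omit [PartialOrder M] [Language.order.OrderedStructure M]

theorem t_var (i : α) : Tm fun v : α → M => v i := Set.DefinableFun.proj _
theorem t_con (c : M) : Tm fun _ : α → M => c := definableFun_const _ _ trivial
theorem d_and (hp : Df p) (hq : Df q) : Df fun v => p v ∧ q v := Set.Definable.inter hp hq
theorem d_or (hp : Df p) (hq : Df q) : Df fun v => p v ∨ q v := Set.Definable.union hp hq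
theorem d_not (hp : Df p) : Df fun v => ¬ p v := Set.Definable.compl hp
theorem Df.of (hp : Df p) (e : ∀ v, p v ↔ q v) : Df q := funext (fun v => propext (e v)) ▸ hp
theorem d_imp (hp : Df p) (hq : Df q) : Df fun v => p v → q v :=
  (d_or (d_not hp) hq).of fun _ => imp_iff_not_or.symm
theorem d_iff (hp : Df p) (hq : Df q) : Df fun v => (p v ↔ q v) :=
  (d_and (d_imp hp hq) (d_imp hq hp)).of fun _ => iff_def.symm
theorem d_eq (hs : Tm s) (ht : Tm t) : Df fun v => s v = t v := Set.DefinableFun.ofPred_eq hs ht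
theorem d_ex {R : (α → M) → M → Prop}
    (h : Df fun w : α ⊕ Unit → M => R (fun i => w (.inl i)) (w (.inr ()))) :
    Df fun v => ∃ x, R v x :=
  Df.of (Set.Definable.exists_of_finite h) fun _ =>
    ⟨fun ⟨u, h⟩ => ⟨u (), h⟩, fun ⟨x, h⟩ => ⟨fun _ => x, h⟩⟩
theorem d_all {R : (α → M) → M → Prop}
    (h : Df fun w : α ⊕ Unit → M => R (fun i => w (.inl i)) (w (.inr ()))) :
    Df fun v => ∀ x, R v x :=
  Df.of (Set.Definable.forall_of_finite h) fun _ =>
    ⟨fun h x => h fun _ => x, fun h u => h (u ())⟩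
theorem d_fex {ι : Type} [Finite ι] {R : ι → (α → M) → Prop} (h : ∀ i, Df (R i)) :
    Df fun v => ∃ i, R i v :=
  Df.of (p := fun v => v ∈ ⋃ i, {v | R i v}) (Set.definable_iUnion_of_finite h) fun _ => by simp
theorem D2.app {R : M → M → Prop} (h : D2 R) (hs : Tm s) (ht : Tm t) :
    Df fun v => R (s v) (t v) :=
  Set.Definable.preimage_map (F := fun v => ![s v, t v])
    (fun i => by fin_cases i; exacts [hs, ht]) h
theorem D2.of {R S : M → M → Prop} (h : D2 R) (e : ∀ x y, R x y ↔ S x y) : D2 S :=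
  Df.of h fun _ => e _ _
end

theorem d_le {M : Type} [PartialOrder M] [Language.order.Structure M]
    [Language.order.OrderedStructure M] : D2 fun x y : M => x ≤ y :=
  Set.Definable.mono (A := ∅) (Set.empty_definable_iff.2
    ⟨Relations.formula₂ leSymb (Term.var 0) (Term.var 1), by ext v; simp⟩) (Set.empty_subset _)

inductive Dm | a (k : ℕ) | b (k : ℕ) | g (t : Fin 3) (k : ℕ) | ma | mb | mg (t : Fin 3)

open Dm Sum

def pj (t : Fin 3) (k : ℕ) : ℕ := ![k, k.unpair.1, k.unpair.2] t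

def rho : Dm → Dm → Prop
  | a i, g t k => i = pj t k
  | b i, g _ k => i = k
  | mg t, g t' _ => t = t'
  | a _, ma => True
  | b _, mb => True
  | _, _ => False

def Ch : Type := {v : ℕ → ℕ // ∀ n, v (n + 1) / 2 = v n}

def kap : Dm → Ch → Prop
  | a s, z => 2 * s.unpair.2 ≤ z.1 s.unpair.1
  | b s, z => 2 * s.unpair.2 + 1 ≤ z.1 s.unpair.1
  | _, _ => False

def M : Type := Dm ⊕ Ch

def le : M → M → Prop
  | inl x, inl y => x = y ∨ rho x y
  | inl x, inr z => kap x z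
  | inr _, inl _ => False
  | inr z, inr w => ∀ n, z.1 n ≤ w.1 n

theorem rho2 {x y z : Dm} (h : rho x y) : ¬ rho y z := by
  cases x <;> cases y <;> simp_all [rho]

theorem rho3 {x y : Dm} {z : Ch} (h : rho x y) : ¬ kap y z := by
  cases x <;> cases y <;> simp_all [rho, kap]

theorem kap.mono {x : Dm} {z w : Ch} (h : kap x z) (e : ∀ n, z.1 n ≤ w.1 n) : kap x w := by
  cases x
  exacts [le_trans h (e _), le_trans h (e _), h, h, h, h]

instance : PartialOrder M where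
  le := le
  le_refl x := by cases x <;> simp [le]
  le_trans x y z h h' := by
    rcases x with x | x <;> rcases y with y | y <;> rcases z with z | z
    · rcases h with rfl | h
      · exact h'
      · exact .inr (h'.resolve_right (rho2 h) ▸ h)
    · exact h.elim (· ▸ h') fun h => (rho3 h h').elim
    · exact h'.elim
    · exact kap.mono h h'
    · exact h.elim
    · exact h.elim
    · exact h'.elim
    · exact fun n => (h n).trans (h' n)
  le_antisymm x y h h' := by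
    rcases x with x | x <;> rcases y with y | y
    · exact congrArg inl (h.elim id fun h => (h'.resolve_right (rho2 h)).symm)
    · exact h'.elim
    · exact h.elim
    · exact congrArg inr (Subtype.ext (funext fun n => (h n).antisymm (h' n)))

instance : Language.order.Structure M := orderStructure M
instance : Language.order.OrderedStructure M := ⟨fun _ => Iff.rfl⟩

def i1 (d : Dm) : M := inl d
def i2 (z : Ch) : M := inr z

@[simp] theorem le11 {x y : Dm} : i1 x ≤ i1 y ↔ x = y ∨ rho x y := Iff.rfl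
@[simp] theorem le12 {x : Dm} {z : Ch} : i1 x ≤ i2 z ↔ kap x z := Iff.rfl
@[simp] theorem le21 {x : Dm} {z : Ch} : i2 z ≤ i1 x ↔ False := Iff.rfl
@[simp] theorem le22 {z w : Ch} : i2 z ≤ i2 w ↔ ∀ n, z.1 n ≤ w.1 n := Iff.rfl
@[simp] theorem eq11 {x y : Dm} : i1 x = i1 y ↔ x = y := ⟨inl_injective.eq_iff.1, congrArg _⟩
@[simp] theorem eq12 {x : Dm} {z : Ch} : i1 x = i2 z ↔ False := ⟨fun h => inl_ne_inr h, False.elim⟩
@[simp] theorem eq21 {x : Dm} {z : Ch} : i2 z = i1 x ↔ False := ⟨fun h => inr_ne_inl h, False.elim⟩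
@[simp] theorem eq22 {z w : Ch} : i2 z = i2 w ↔ z = w := ⟨inr_injective.eq_iff.1, congrArg _⟩

theorem cs (x : M) : (∃ d, x = i1 d) ∨ ∃ z, x = i2 z := by
  cases x; exacts [.inl ⟨_, rfl⟩, .inr ⟨_, rfl⟩]

def Lt (x y : M) : Prop := x ≤ y ∧ ¬ x = y

theorem dLt : D2 Lt := d_and d_le (d_not (d_eq (t_var _) (t_var _)))

theorem ltA {x : M} : Lt x (i1 ma) ↔ ∃ k, x = i1 (a k) := by
  rcases cs x with ⟨d, rfl⟩ | ⟨z, rfl⟩
  · cases d <;> simp [Lt, rho]
  · simp [Lt]

theorem ltB {x : M} : Lt x (i1 mb) ↔ ∃ k, x = i1 (b k) := by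
  rcases cs x with ⟨d, rfl⟩ | ⟨z, rfl⟩
  · cases d <;> simp [Lt, rho]
  · simp [Lt]

theorem ltG {x : M} {t : Fin 3} : Lt (i1 (mg t)) x ↔ ∃ k, x = i1 (g t k) := by
  rcases cs x with ⟨d, rfl⟩ | ⟨z, rfl⟩
  · cases d <;> simp [Lt, rho, eq_comm]
  · simp [Lt, kap]

def Lk (t : Fin 3) (y x : M) : Prop := ∃ k, y = i1 (b k) ∧ x = i1 (a (pj t k))

theorem dLk (t : Fin 3) : D2 (Lk t) := by
  refine D2.of (R := fun y x => ∃ w, Lt (i1 (mg t)) w ∧ y ≤ w ∧ x ≤ w ∧ Lt y (i1 mb) ∧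
    Lt x (i1 ma)) ?_ fun y x => ?_
  · unfold D2
    repeat' with_reducible first
      | apply dLt.app
      | apply d_ex
      | apply d_and
      | apply d_le.app
      | apply t_var
      | apply t_con
  · simp only [ltA, ltB, ltG]
    refine ⟨?_, ?_⟩
    · rintro ⟨_, ⟨k, rfl⟩, h1, h2, ⟨i, rfl⟩, j, rfl⟩
      exact ⟨k, by simpa [rho] using h1, by simpa [rho] using h2⟩
    · rintro ⟨k, rfl, rfl⟩
      exact ⟨_, ⟨k, rfl⟩, by simp [rho], by simp [rho], ⟨_, rfl⟩, _, rfl⟩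

def Fn (t : Fin 3) (y y' : M) : Prop := ∃ k, y = i1 (b k) ∧ y' = i1 (b (pj t k))

theorem dFn (t : Fin 3) : D2 (Fn t) := by
  refine D2.of (R := fun y y' => ∃ x, Lk t y x ∧ Lk 0 y' x) ?_ fun y x => ?_
  · unfold D2
    repeat' with_reducible first
      | apply d_ex
      | apply d_and
      | apply (dLk _).app
      | apply t_var
  · refine ⟨?_, ?_⟩
    · rintro ⟨_, ⟨k, rfl, rfl⟩, i, rfl, h⟩
      exact ⟨k, rfl, by simpa [pj, eq_comm] using h⟩
    · rintro ⟨k, rfl, rfl⟩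
      exact ⟨_, ⟨k, rfl, rfl⟩, _, rfl, rfl⟩

theorem bits (X : ℕ → Prop) : ∃ z : Ch, ∀ n, X n ↔ z.1 n % 2 = 0 := by
  classical
  refine ⟨⟨fun n => n.rec (if X 0 then 0 else 1) fun n r => 2 * r + if X (n + 1) then 0 else 1,
    fun n => ?_⟩, fun n => ?_⟩
  · simp only; split_ifs <;> omega
  · cases n with
    | zero => by_cases h : X 0 <;> simp [h]
    | succ n => by_cases h : X (n + 1) <;> simp [h]

def B2 (R : ℕ → ℕ → Prop) (y y' : M) : Prop := ∃ i j, y = i1 (b i) ∧ y' = i1 (b j) ∧ R i j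

theorem dB2 (R : ℕ → ℕ → Prop) : D2 (B2 R) := by
  obtain ⟨z, hz⟩ := bits fun k => R k.unpair.1 k.unpair.2
  refine D2.of (R := fun y y' => ∃ w, Fn 1 w y ∧ Fn 2 w y' ∧ ∃ u, Fn 1 u w ∧ ∃ x, Lk 0 u x ∧
    x ≤ i2 z ∧ ¬ u ≤ i2 z) ?_ fun y x => ?_
  · unfold D2
    repeat' with_reducible first
      | apply d_ex
      | apply d_and
      | apply d_not
      | apply (dFn _).app
      | apply (dLk _).app
      | apply d_le.app
      | apply t_var
      | apply t_con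
  · refine ⟨?_, ?_⟩
    · rintro ⟨_, ⟨k, rfl, rfl⟩, ⟨k', e, rfl⟩, _, ⟨s, rfl, e'⟩, _, ⟨s', e'', rfl⟩, h1, h2⟩
      simp only [eq11, b.injEq, pj, le12, kap, Matrix.cons_val] at e e' e'' h1 h2
      subst e e''
      exact ⟨_, _, rfl, rfl, (hz k).2 (by rw [← e'] at h1 h2; omega)⟩
    · rintro ⟨i, j, rfl, rfl, h⟩
      have := (hz (Nat.pair i j)).1 (by simpa using h)
      refine ⟨_, ⟨Nat.pair i j, rfl, by simp [pj]⟩, ⟨_, rfl, by simp [pj]⟩, _,
        ⟨Nat.pair (Nat.pair i j) (z.1 (Nat.pair i j) / 2), rfl, by simp [pj]⟩, _,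
        ⟨_, rfl, rfl⟩, ?_, ?_⟩ <;> simp [pj, kap] <;> omega

def st : Dm → Fin 6 × Fin 3
  | a _ => (0, 0) | b _ => (1, 0) | g t _ => (2, t) | ma => (3, 0) | mb => (4, 0) | mg t => (5, t)

def ix : Dm → ℕ
  | a k => k | b k => k | g _ k => k | _ => 0

theorem st_ix {d e : Dm} (h : st d = st e) (h' : ix d = ix e) : d = e := by
  cases d <;> cases e <;> simp_all [st, ix]

def Ix (τ : Fin 6 × Fin 3) (x y : M) : Prop := ∃ d, x = i1 d ∧ st d = τ ∧ y = i1 (b (ix d))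

theorem dIx (τ : Fin 6 × Fin 3) : D2 (Ix τ) := by
  by_cases h : ∃ d, st d = τ
  swap
  · exact Df.of (p := fun _ => False) Set.definable_empty fun v =>
      ⟨False.elim, fun ⟨d, _, e, _⟩ => h ⟨d, e⟩⟩
  obtain ⟨d, rfl⟩ := h
  have k : ∀ d : Dm, (∀ e, st e = st d → e = d) → ix d = 0 → D2 (Ix (st d)) := fun d h h' =>
    D2.of (R := fun x y => x = i1 d ∧ y = i1 (b 0))
      (d_and (d_eq (t_var _) (t_con _)) (d_eq (t_var _) (t_con _))) fun x y =>
        ⟨fun ⟨h1, h2⟩ => ⟨d, h1, rfl, h' ▸ h2⟩, fun ⟨e, h1, h2, h3⟩ => by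
          obtain rfl := h e h2
          exact ⟨h1, h' ▸ h3⟩⟩
  cases d with
  | a k =>
    refine D2.of (R := fun x y => Lk 0 y x) ((dLk 0).app (t_var _) (t_var _)) fun x y => ⟨?_, ?_⟩
    · rintro ⟨k, rfl, rfl⟩
      exact ⟨_, rfl, rfl, rfl⟩
    · rintro ⟨d, rfl, h, rfl⟩
      cases d <;> simp [st] at h
      exact ⟨_, rfl, rfl⟩
  | b k =>
    refine D2.of (R := Fn 0) (dFn 0) fun x y => ⟨?_, ?_⟩
    · rintro ⟨k, rfl, rfl⟩
      exact ⟨_, rfl, rfl, rfl⟩
    · rintro ⟨d, rfl, h, rfl⟩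
      cases d <;> simp [st] at h
      exact ⟨_, rfl, rfl⟩
  | g t k =>
    refine D2.of (R := fun x y => Lt (i1 (mg t)) x ∧ Lt y (i1 mb) ∧ y ≤ x)
      (d_and (dLt.app (t_con _) (t_var _)) (d_and (dLt.app (t_var _) (t_con _))
        (d_le.app (t_var _) (t_var _)))) fun x y => ?_
    simp only [ltB, ltG]
    refine ⟨?_, ?_⟩
    · rintro ⟨⟨k, rfl⟩, ⟨i, rfl⟩, h⟩
      exact ⟨_, rfl, rfl, by simpa [rho, ix] using h⟩
    · rintro ⟨d, rfl, h, rfl⟩
      cases d <;> simp [st] at h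
      subst h
      exact ⟨⟨_, rfl⟩, ⟨_, rfl⟩, by simp [rho, ix]⟩
  | ma => exact k _ (fun e h => by cases e <;> simp_all [st]) rfl
  | mb => exact k _ (fun e h => by cases e <;> simp_all [st]) rfl
  | mg t => exact k _ (fun e h => by cases e <;> simp_all [st]) rfl

def R2 (R : Dm → Dm → Prop) (x y : M) : Prop := ∃ d e, x = i1 d ∧ y = i1 e ∧ R d e

theorem dR2 (R : Dm → Dm → Prop) : D2 (R2 R) := by
  refine D2.of (R := fun x y => ∃ τ σ : Fin 6 × Fin 3, ∃ u w, Ix τ x u ∧ Ix σ y w ∧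
    B2 (fun i j => ∃ d e, st d = τ ∧ ix d = i ∧ st e = σ ∧ ix e = j ∧ R d e) u w)
    (d_fex fun τ => d_fex fun σ => ?_) fun x y => ⟨?_, ?_⟩
  · repeat' with_reducible first
      | apply d_ex
      | apply d_and
      | apply (dIx _).app
      | apply (dB2 _).app
      | apply t_var
  · rintro ⟨_, _, _, _, ⟨d, rfl, rfl, rfl⟩, ⟨e, rfl, rfl, rfl⟩, i, j, h1, h2, d', e', k1, rfl,
      k2, rfl, k⟩
    simp only [eq11, b.injEq] at h1 h2
    exact ⟨d, e, rfl, rfl, st_ix k1 h1.symm ▸ st_ix k2 h2.symm ▸ k⟩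
  · rintro ⟨d, e, rfl, rfl, h⟩
    exact ⟨_, _, _, _, ⟨d, rfl, rfl, rfl⟩, ⟨e, rfl, rfl, rfl⟩, _, _, rfl, rfl, d, e, rfl, rfl,
      rfl, rfl, h⟩

theorem sepC {z w : Ch} (h : ¬ i2 w ≤ i2 z) : (∃ d, kap d w ∧ ¬ kap d z) ∧ i2 z ≤ i2 w := by
  simp only [le22, not_forall, not_le] at h
  obtain ⟨n, h⟩ := h
  have key : ∀ (z w : Ch) (n m : ℕ), z.1 n < w.1 n → z.1 (n + m) < w.1 (n + m) := fun z w n m h => by
    induction m with
    | zero => exact h
    | succ m ih =>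
      have := z.2 (n + m); have := w.2 (n + m)
      rw [← add_assoc]; omega
  refine ⟨?_, fun m => le_of_not_gt fun c => ?_⟩
  · rcases Nat.mod_two_eq_zero_or_one (w.1 n) with c | c
    · exact ⟨a (Nat.pair n (w.1 n / 2)), by simp [kap]; omega, by simp [kap]; omega⟩
    · exact ⟨b (Nat.pair n (w.1 n / 2)), by simp [kap]; omega, by simp [kap]; omega⟩
  · have := key z w n m h
    have := key w z m n c
    rw [add_comm] at this
    omega

theorem ext {x y : M} (h : ∀ d, i1 d ≤ x ↔ i1 d ≤ y) : x = y := by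
  have k : ∀ (d : Dm) (z : Ch), ¬ ∀ e, i1 e ≤ i1 d ↔ i1 e ≤ i2 z := fun d z h => by
    have h0 := (h d).1 le_rfl
    have h1 := ((h (a (Nat.pair 0 0))).2 (by simp [kap])).resolve_right fun c => rho3 c h0
    have h2 := ((h (a (Nat.pair 1 0))).2 (by simp [kap])).resolve_right fun c => rho3 c h0
    simp [← h1] at h2
  rcases cs x with ⟨d, rfl⟩ | ⟨z, rfl⟩ <;> rcases cs y with ⟨e, rfl⟩ | ⟨w, rfl⟩
  · exact le_antisymm ((h d).1 le_rfl) ((h e).2 le_rfl)
  · exact (k _ _ h).elim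
  · exact (k _ _ fun e => (h e).symm).elim
  · exact le_antisymm (by_contra fun c => let ⟨⟨d, h1, h2⟩, _⟩ := sepC c; h2 ((h d).1 h1))
      (by_contra fun c => let ⟨⟨d, h1, h2⟩, _⟩ := sepC c; h2 ((h d).2 h1))

theorem upC {U : Ch → Prop} (hU : ∀ z w, i2 z ≤ i2 w → U z → U w) (x : Ch) :
    U x ↔ (∃ e, (∀ z, kap e z → U z) ∧ kap e x) ∨
      (∃ m, U m ∧ ∀ z, U z → i2 m ≤ i2 z) ∧ ∀ e, kap e x ↔ ∀ z, U z → kap e z := by
  refine ⟨fun h => or_iff_not_imp_left.2 fun c => ?_, ?_⟩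
  · have k : ∀ z, U z → i2 x ≤ i2 z := fun z hz => by_contra fun c' => by
      obtain ⟨⟨d, h1, h2⟩, -⟩ := sepC c'
      exact c ⟨d, fun w hw => hU z w (by_contra fun c'' => h2 (hw.mono (sepC c'').2)) hz, h1⟩
    exact ⟨⟨x, h, k⟩, fun e => ⟨fun h z hz => h.mono (k z hz), fun h' => h' x h⟩⟩
  · rintro (⟨e, h1, h2⟩ | ⟨⟨m, h1, h2⟩, h3⟩)
    · exact h1 x h2
    · exact hU m x (by_contra fun c => let ⟨⟨d, k1, k2⟩, _⟩ := sepC c
        k2 ((h3 d).2 fun z hz => k1.mono (h2 z hz))) h1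

theorem main (f : M → M) (hf : Monotone f) : D2 fun x y => f x = y := by
  let o : Ch := ⟨fun _ => 0, fun _ => by simp⟩
  refine D2.of (R := fun x y => ∀ d, ¬ i2 o ≤ d → (d ≤ y ↔ R2 (fun d e => i1 d ≤ f (i1 e)) d x ∨
    i2 o ≤ x ∧ ((∃ e, R2 (fun d e => ∀ z, kap e z → i1 d ≤ f (i2 z)) d e ∧ e ≤ x) ∨
      R2 (fun d _ => ∃ m, i1 d ≤ f (i2 m) ∧ ∀ z, i1 d ≤ f (i2 z) → i2 m ≤ i2 z) d d ∧
      ∀ e, ¬ i2 o ≤ e → (e ≤ x ↔ R2 (fun d e => ∀ z, i1 d ≤ f (i2 z) → kap e z) d e))))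
    ?_ fun x y => ?_
  · unfold D2
    repeat' with_reducible first
      | apply (dR2 _).app
      | apply d_not
      | apply d_imp
      | apply d_all
      | apply d_ex
      | apply d_and
      | apply d_or
      | apply d_iff
      | apply d_le.app
      | apply t_var
      | apply t_con
  · have k : ∀ P : M → Prop, (∀ d, ¬ i2 o ≤ d → P d) ↔ ∀ d, P (i1 d) := fun P =>
      ⟨fun h d => h _ id, fun h d hd => by
        rcases cs d with ⟨d, rfl⟩ | ⟨z, rfl⟩
        exacts [h d, (hd fun _ => Nat.zero_le _).elim]⟩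
    simp only [k]
    refine Iff.trans (forall_congr' fun d => iff_congr Iff.rfl (?_ : _ ↔ i1 d ≤ f x))
      ⟨fun h => (ext h).symm, fun h _ => h ▸ Iff.rfl⟩
    rcases cs x with ⟨e, rfl⟩ | ⟨z, rfl⟩
    · simp [R2]
    · rw [upC (U := fun z => i1 d ≤ f (i2 z)) (fun z w h h' => h'.trans (hf h)) z]
      simp [R2, o]

end Pool.Agent.H.MP_b47165_lc
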